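import Pool.Agent.Q202.RS.Group
import Pool.Agent.Helper463.BCPara

/-!
# Amenability is not necessary for the existence of non-regular right translation invariant operators

Let `G` be a discrete group with an element `g` of infinite order and let `U` be the left translation by
`g` on `ℓ²(G)`, an isometry. Let `P_k` be the Rudin-Shapiro polynomials (of degree less than `2^k`, with
coefficients `±1`). By the parallelogram law `‖P_k(U)‖² ≤ 2^(k+1)`. So `T = ∑ 3^(-k) P_(2k)(U)` is a bounded
operator, which commutes with all right translations. If `T` were regular there would be a positive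
bounded operator `S` with `|T f| ≤ S f` for `f ≥ 0`; for the indicator `f` of `{g^x : 0 ≤ x < 4^k}` we get
`‖S‖ 4^k ≥ ⟨f, S f⟩ ≥ 3^(-k) 4^(2 k) / 2`, a contradiction for large `k`. The free group on two generators is
such a group and is not amenable.
-/

set_option autoImplicit false

open scoped ENNReal

namespace Pool.Agent.Results.MP_b39683_an.NonRegularOnFreeGroup

/-- `L^p(G)` for a discrete group `G`, with respect to the counting measure -/
abbrev LpG (p : ℝ≥0∞) (G : Type) : Type := lp (fun _ : G => ℂ) p

/-- the bounded operators on `L^p(G)` -/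
def Op (p : ℝ≥0∞) [Fact (1 ≤ p)] (G : Type) : Type := LpG p G →L[ℂ] LpG p G

/-- the value of `T f` at `t` -/
noncomputable def app {G : Type} {p : ℝ≥0∞} [Fact (1 ≤ p)] (T : Op p G) (f : LpG p G) (t : G) : ℂ :=
  (DFunLike.coe (F := LpG p G →L[ℂ] LpG p G) T f : G → ℂ) t

/-- the function `f` takes real nonnegative values only -/
def IsNonneg {G : Type} (f : G → ℂ) : Prop := ∀ t, 0 ≤ (f t).re ∧ (f t).im = 0

/-- `S` maps nonnegative functions to nonnegative functions -/
def IsPositive {G : Type} {p : ℝ≥0∞} [Fact (1 ≤ p)] (S : Op p G) : Prop :=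
  ∀ f : LpG p G, IsNonneg (f : G → ℂ) → IsNonneg (app S f)

/-- `T` is a complex linear combination of positive operators -/
def IsRegular {G : Type} {p : ℝ≥0∞} [Fact (1 ≤ p)] (T : Op p G) : Prop :=
  ∃ (n : ℕ) (c : Fin n → ℂ) (S : Fin n → Op p G), (∀ i, IsPositive (S i)) ∧
    ∀ (f : LpG p G) (t : G), app T f t = ∑ i, c i * app (S i) f t

/-- `T` commutes with all right translations `(ρ_s f)(t) = f(t s)` -/
def CommutesWithRightTranslations {G : Type} [Group G] {p : ℝ≥0∞} [Fact (1 ≤ p)]
    (T : Op p G) : Prop :=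
  ∀ (s : G) (f h : LpG p G), (∀ t, (h : G → ℂ) t = (f : G → ℂ) (t * s)) →
    ∀ t, app T h t = app T f (t * s)

/-- the discrete group `G` is amenable: there is a finitely additive left invariant probability measure
on all subsets of `G` -/
def IsAmenable (G : Type) [Group G] : Prop :=
  ∃ m : Set G → ℝ, m Set.univ = 1 ∧ (∀ A, 0 ≤ m A) ∧
    (∀ A B, Disjoint A B → m (A ∪ B) = m A + m B) ∧
    ∀ (g : G) (A : Set G), m ((fun x => g * x) '' A) = m A

/-- For every discrete group `G` with an element of infinite order there is a bounded operator on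
`L²(G)` which commutes with all right translations and is not regular; and there is such a group
which is not amenable, the free group on two generators. -/
theorem result :
    (∀ (G : Type) [Group G] (g : G), (∀ n : ℕ, 0 < n → g ^ n ≠ 1) →
      ∃ T : Op 2 G, CommutesWithRightTranslations T ∧ ¬ IsRegular T) ∧
    ¬ IsAmenable (FreeGroup Bool) ∧ ∃ g : FreeGroup Bool, ∀ n : ℕ, 0 < n → g ^ n ≠ 1 := by
  refine ⟨?_, ?_, ?_⟩
  · intro G _ g hg
    have hinj : Function.Injective fun n : ℕ => g ^ n := by
      have key : ∀ m n : ℕ, m < n → g ^ m ≠ g ^ n := by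
        intro m n hmn h
        apply hg (n - m) (by omega)
        have h1 : g ^ m * g ^ (n - m) = g ^ m * 1 := by
          rw [← pow_add, mul_one, h]
          congr 1
          omega
        exact mul_left_cancel h1
      intro m n h
      rcases lt_trichotomy m n with h1 | h1 | h1
      · exact absurd h (key m n h1)
      · exact h1
      · exact absurd h.symm (key n m h1)
    refine ⟨Pool.Agent.Q202.RS.TU (Pool.Agent.Q202.RS.lt g), ?_, ?_⟩
    · intro s f h hh t
      have h1 : h = Pool.Agent.Q202.RS.rt s f := by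
        ext t
        exact hh t
      have h2 := Pool.Agent.Q202.RS.TU_commute (Pool.Agent.Q202.RS.norm_lt g)
        (Pool.Agent.Q202.RS.commute_lt_rt g s)
      have h3 : Pool.Agent.Q202.RS.rt s (Pool.Agent.Q202.RS.TU (Pool.Agent.Q202.RS.lt g) f) =
          Pool.Agent.Q202.RS.TU (Pool.Agent.Q202.RS.lt g) (Pool.Agent.Q202.RS.rt s f) :=
        congrArg (fun F : LpG 2 G →L[ℂ] LpG 2 G => F f) h2
      show (Pool.Agent.Q202.RS.TU (Pool.Agent.Q202.RS.lt g) h : G → ℂ) t =
        (Pool.Agent.Q202.RS.TU (Pool.Agent.Q202.RS.lt g) f : G → ℂ) (t * s)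
      rw [h1, ← h3]
      rfl
    · rintro ⟨n, c, S, hS, hT⟩
      refine Pool.Agent.Q202.RS.not_reg g hinj ⟨n, c, S, fun i f hf => hS i f hf, ?_⟩
      ext f t
      have h5 : (Pool.Agent.Q202.RS.TU (Pool.Agent.Q202.RS.lt g) f : G → ℂ) t =
          ∑ i, c i * (DFunLike.coe (F := LpG 2 G →L[ℂ] LpG 2 G) (S i) f : G → ℂ) t := hT f t
      rw [h5, ContinuousLinearMap.sum_apply, lp.coeFn_sum, Finset.sum_apply]
      rfl
  · rintro ⟨m, h1, h2, h3, h4⟩
    refine Pool.Agent.Helper463.BC.paradox (MonoidHom.id _) (fun i => FreeGroup.of i)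
      (fun i => rfl) m h1 h2 h3 (fun i S => ?_)
    rw [h4, sub_self, abs_zero]
    norm_num
  · refine ⟨FreeGroup.of true, fun n hn h => ?_⟩
    have h1 : (fun x : FreeGroup Bool => x ^ n) (FreeGroup.of true) =
        (fun x : FreeGroup Bool => x ^ n) 1 := by
      show FreeGroup.of true ^ n = 1 ^ n
      rw [h, one_pow]
    exact FreeGroup.of_ne_one true (IsMulTorsionFree.pow_left_injective hn.ne' h1)

end Pool.Agent.Results.MP_b39683_an.NonRegularOnFreeGroup
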